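import Pool.Agent.J4H20.TP.Stm
import Pool.Agent.J4H36.TR.Ch

set_option autoImplicit false

namespace Pool.Agent.J4H36.TP

open Polynomial NumberField nonZeroDivisors Pool.Agent.W289.CG Pool.Agent.J4H20.TP
open Pool.Agent.J4H36.TR (exists_inj not_dvd_of_lt)

/-- a prime `q₀ > B` which is a primitive root modulo `p` -/
theorem exists_primitive {p : ℕ} (hp : p.Prime) (B : ℕ) :
    ∃ q : ℕ, q.Prime ∧ B < q ∧ orderOf (q : ZMod p) = p - 1 := by
  haveI : Fact p.Prime := ⟨hp⟩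
  haveI : NeZero p := ⟨hp.ne_zero⟩
  obtain ⟨g, hg⟩ := IsCyclic.exists_generator (α := (ZMod p)ˣ)
  obtain ⟨q, hqB, hq, hqg⟩ := Nat.forall_exists_prime_gt_and_eq_mod (q := p) g.isUnit B
  refine ⟨q, hq, hqB, ?_⟩
  rw [hqg, orderOf_units, orderOf_eq_card_of_forall_mem_zpowers hg, Nat.card_eq_fintype_card,
    ZMod.card_units]

/-- a prime `q > B` with `q ≡ - 1` modulo `p` -/
theorem exists_neg {p : ℕ} (hp : p.Prime) (hp2 : 2 < p) (B : ℕ) :
    ∃ q : ℕ, q.Prime ∧ B < q ∧ ¬ p ∣ q - 1 := by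
  haveI : NeZero p := ⟨hp.ne_zero⟩
  haveI : Fact p.Prime := ⟨hp⟩
  obtain ⟨q, hqB, hq, hqg⟩ := Nat.forall_exists_prime_gt_and_eq_mod (q := p) (a := -1)
    (isUnit_one.neg) B
  refine ⟨q, hq, hqB, ?_⟩
  intro hd
  have h1 : ((q - 1 : ℕ) : ZMod p) = 0 := (ZMod.natCast_eq_zero_iff _ _).2 hd
  rw [Nat.cast_sub hq.one_lt.le, hqg] at h1
  have h2 : ((2 : ℕ) : ZMod p) = 0 := by
    push_cast
    push_cast at h1
    linear_combination -h1
  have h3 := (ZMod.natCast_eq_zero_iff _ _).1 h2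
  have := Nat.le_of_dvd (by norm_num) h3
  omega

/-- a point of a large set where the derivative is not zero -/
theorem exists_point {q m : ℕ} [Fact q.Prime] (a : Fin (m + 2) → ℤ) (hq : m + 2 < q)
    (S : Finset (ZMod q)) (hS : m + 2 < S.card) : ∃ x ∈ S,
      ((derivative (∏ i, (X - C (a i)))).map (Int.castRingHom (ZMod q))).eval x ≠ 0 := by
  classical
  by_contra hcon
  push_neg at hcon
  set F := (derivative (∏ i, (X - C (a i)))).map (Int.castRingHom (ZMod q)) with hF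
  have hG : F = derivative (∏ i, (X - C ((a i : ℤ) : ZMod q))) := by
    rw [hF, ← derivative_map, Polynomial.map_prod]
    congr 1
    refine Finset.prod_congr rfl (fun i _ => ?_)
    simp
  set G : (ZMod q)[X] := ∏ i, (X - C ((a i : ℤ) : ZMod q)) with hGdef
  have hGm : G.Monic := monic_prod_X_sub_C _ _
  have hGd : G.natDegree = m + 2 := by
    rw [hGdef, natDegree_finsetProd_X_sub_C_eq_card, Finset.card_univ, Fintype.card_fin]
  have hc : F.coeff (m + 1) ≠ 0 := by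
    rw [hG, coeff_derivative]
    have h1 : G.coeff (m + 1 + 1) = 1 := by
      have := hGm.coeff_natDegree
      rwa [hGd] at this
    rw [h1, one_mul]
    intro h2
    have h3 : ((m + 2 : ℕ) : ZMod q) = 0 := by
      push_cast
      push_cast at h2
      linear_combination h2
    have h4 := Nat.le_of_dvd (by omega) ((ZMod.natCast_eq_zero_iff _ _).1 h3)
    omega
  have hF0 : F ≠ 0 := by
    intro h
    rw [h] at hc
    simp at hc
  have h1 : S ⊆ F.roots.toFinset := by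
    intro x hx
    rw [Multiset.mem_toFinset, mem_roots hF0]
    exact hcon x hx
  have h2 : S.card ≤ F.natDegree :=
    (Finset.card_le_card h1).trans ((Multiset.toFinset_card_le _).trans (card_roots' F))
  have h3 : F.natDegree ≤ m + 2 := by
    rw [hG]
    exact (natDegree_derivative_le _).trans (by omega)
  omega

theorem t_CHP : S_T1P → S_T2P → S_T3P → Pool.Agent.J4H20.TR.S_T4 → S_CHP := by
  classical
  intro hT1 hT2 hT3 hT4 p e k D α β N hα hαβ
  have hp := D.hp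
  haveI : Fact p.Prime := ⟨hp⟩
  -- the product of the differences
  set M₀ : ℤ := ∏ i, ∏ j, (if i = j then 1 else D.a i - D.a j) with hM₀
  have hM₀0 : M₀ ≠ 0 := by
    rw [hM₀]
    refine Finset.prod_ne_zero_iff.2 (fun i _ => Finset.prod_ne_zero_iff.2 (fun j _ => ?_))
    split_ifs with h
    · exact one_ne_zero
    · exact sub_ne_zero.2 (fun he => h (D.ha he))
  have hdvd : ∀ i j, i ≠ j → D.a i - D.a j ∣ M₀ := by
    intro i j hij
    have h1 : (∏ j, (if i = j then 1 else D.a i - D.a j)) ∣ M₀ :=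
      Finset.dvd_prod_of_mem _ (Finset.mem_univ i)
    have h2 : (if i = j then 1 else D.a i - D.a j) ∣ ∏ j, (if i = j then 1 else D.a i - D.a j) :=
      Finset.dvd_prod_of_mem (fun j => (if i = j then 1 else D.a i - D.a j)) (Finset.mem_univ j)
    rw [if_neg hij] at h2
    exact h2.trans h1
  have h2M₀ : (2 * M₀) ≠ 0 := mul_ne_zero two_ne_zero hM₀0
  obtain ⟨q₀, hq₀, hq₀1, hq₀o⟩ := exists_primitive hp (N + (2 * M₀).natAbs + p)
  obtain ⟨B3, hB3⟩ := hT3 p e k D
  obtain ⟨x', B2, hB2⟩ := hT2 p e k D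
  -- the property of a prime
  let R : (q : ℕ) → ℤ → ZMod q → Prop := fun q x s => ∀ c M : ℤ, ¬ (q : ℤ) ∣ M →
    (c : ZMod q) = s * (M : ZMod q) → (q : ℤ) ∣ (HP p D.g D.r c M).eval x ∧
      ¬ (q : ℤ) ∣ (derivative (HP p D.g D.r c M)).eval x
  let Pr : ℕ → ℕ → Prop := fun j q => q.Prime ∧ ∃ (x : ℤ) (s : ZMod q), R q x s ∧
    (∀ i : Fin k, (i : ℕ) = j → (∀ t, ((x - D.a t : ℤ) : ZMod q) ≠ 0) ∧
      (∀ t, t ≠ i.castSucc.castSucc → t ≠ (Fin.last k).castSucc →
        ∃ y : ZMod q, ((x - D.a t : ℤ) : ZMod q) = y ^ p) ∧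
      ¬ ∃ y : ZMod q, ((x - D.a i.castSucc.castSucc : ℤ) : ZMod q) = y ^ p) ∧
    (k ≤ j → ¬ p ∣ q - 1)
  have hPr : ∀ j C, ∃ q, C < q ∧ Pr j q := by
    intro j C
    by_cases h : j < k
    · have huv : (⟨j, h⟩ : Fin k).castSucc.castSucc ≠ (Fin.last k).castSucc := by
        intro he
        have := congrArg Fin.val he
        simp at this
        omega
      obtain ⟨q, hq, hqC, hqp, S, hS, hSx⟩ := hT1 p (k + 2) D.a _ _ (k + 2) (C + B3 + k + 2)
        hp D.hp2 D.ha huv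
      haveI : Fact q.Prime := ⟨hq⟩
      haveI : NeZero q := ⟨hq.ne_zero⟩
      obtain ⟨z, hz, hzF⟩ := exists_point D.a (by omega : k + 2 < q) S hS
      obtain ⟨h1, h2, ⟨y, h3⟩, h4⟩ := hSx z hz
      have hcast : ((z.val : ℤ) : ZMod q) = z := by
        rw [Int.cast_natCast, ZMod.natCast_zmod_val]
      have hsub : ∀ t, (((z.val : ℤ) - D.a t : ℤ) : ZMod q) = z - (D.a t : ZMod q) := by
        intro t
        rw [Int.cast_sub, hcast]
      have hne : ∀ t, (((z.val : ℤ) - D.a t : ℤ) : ZMod q) ≠ 0 := by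
        intro t
        rw [hsub t]
        exact sub_ne_zero.2 (h1 t)
      have hpow : ∀ t, t ≠ (⟨j, h⟩ : Fin k).castSucc.castSucc → t ≠ (Fin.last k).castSucc →
          ∃ y : ZMod q, (((z.val : ℤ) - D.a t : ℤ) : ZMod q) = y ^ p := by
        intro t ht1 ht2
        rw [hsub t]
        exact h2 t ht1 ht2
      have hprod : ∃ y : ZMod q, ∏ t, (((z.val : ℤ) - D.a t : ℤ) : ZMod q) = y ^ p := by
        have h5 : ∀ t, ∃ y : ZMod q, t ≠ (⟨j, h⟩ : Fin k).castSucc.castSucc →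
            t ≠ (Fin.last k).castSucc → (((z.val : ℤ) - D.a t : ℤ) : ZMod q) = y ^ p := by
          intro t
          by_cases ht1 : t = (⟨j, h⟩ : Fin k).castSucc.castSucc
          · exact ⟨0, fun h' => absurd ht1 h'⟩
          · by_cases ht2 : t = (Fin.last k).castSucc
            · exact ⟨0, fun _ h' => absurd ht2 h'⟩
            · obtain ⟨y, hy⟩ := hpow t ht1 ht2
              exact ⟨y, fun _ _ => hy⟩
        choose w hw using h5
        set u0 := (⟨j, h⟩ : Fin k).castSucc.castSucc with hu0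
        set v0 := (Fin.last k).castSucc with hv0
        refine ⟨y * ∏ t ∈ (Finset.univ.erase u0).erase v0, w t, ?_⟩
        rw [← Finset.mul_prod_erase _ _ (Finset.mem_univ u0),
          ← Finset.mul_prod_erase (Finset.univ.erase u0) _
            (Finset.mem_erase.2 ⟨huv.symm, Finset.mem_univ v0⟩), ← mul_assoc, hsub, hsub, h3,
          mul_pow, ← Finset.prod_pow]
        congr 1
        refine Finset.prod_congr rfl (fun t ht => ?_)
        have ht1 := Finset.mem_erase.1 ht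
        have ht2 := Finset.mem_erase.1 ht1.2
        exact hw t ht2.1 ht1.1
      obtain ⟨s, hs⟩ := hB3 q (z.val : ℤ) (by omega) hqp
        (Finset.prod_ne_zero_iff.2 (fun t _ => hne t)) (by
          have := hzF
          rw [← hcast, eval_intCast_map] at this
          simpa using this) hprod
      refine ⟨q, by omega, hq, (z.val : ℤ), s, hs, ?_, fun h5 => by omega⟩
      intro i hi
      have : i = ⟨j, h⟩ := Fin.ext hi
      subst this
      refine ⟨hne, hpow, ?_⟩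
      rintro ⟨y, hy⟩
      exact h4 ⟨y, by rw [← hsub]; exact hy⟩
    · obtain ⟨q, hq, hqC, hqp⟩ := exists_neg hp D.hp2 (C + B2)
      haveI : Fact q.Prime := ⟨hq⟩
      obtain ⟨s, hs⟩ := hB2 q (by omega) hqp
      refine ⟨q, by omega, hq, x', s, hs, fun i hi => ?_, fun _ => hqp⟩
      exact absurd (hi ▸ i.2) h
  obtain ⟨u, huinj, hu⟩ := exists_inj Pr hPr (q₀ + (2 * M₀).natAbs + p)
  have hu' : ∀ j, ∃ (x : ℤ) (s : ZMod (u j)), R (u j) x s ∧
    (∀ i : Fin k, (i : ℕ) = j → (∀ t, ((x - D.a t : ℤ) : ZMod (u j)) ≠ 0) ∧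
      (∀ t, t ≠ i.castSucc.castSucc → t ≠ (Fin.last k).castSucc →
        ∃ y : ZMod (u j), ((x - D.a t : ℤ) : ZMod (u j)) = y ^ p) ∧
      ¬ ∃ y : ZMod (u j), ((x - D.a i.castSucc.castSucc : ℤ) : ZMod (u j)) = y ^ p) ∧
    (k ≤ j → ¬ p ∣ u j - 1) := fun j => (hu j).2.2
  choose X s₀ hX1 hX2 hX3 using hu'
  have hs : ∀ q : ℕ, ∃ s : ZMod q, ∀ j, u j = q → R q (X j) s := by
    intro q
    by_cases h : ∃ j, u j = q
    · obtain ⟨j, rfl⟩ := h
      refine ⟨s₀ j, ?_⟩
      intro j' hj'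
      rw [huinj hj']
      exact hX1 j
    · exact ⟨0, fun j hj => absurd ⟨j, hj⟩ h⟩
  choose s hs using hs
  obtain ⟨c, M, hc, hM, hcop, hM₀M, hq₀M, hq₀M2, hq₀c, hαc, hβc, hL⟩ :=
    hT4 M₀ q₀ ((Finset.range (k + 1)).image u) s α β hM₀0 hq₀
      (not_dvd_of_lt h2M₀ (by omega)) (by
        intro q hq
        obtain ⟨j, hj, rfl⟩ := Finset.mem_image.1 hq
        have h1 := (hu j).1
        exact ⟨(hu j).2.1, not_dvd_of_lt h2M₀ (by omega), by omega⟩) hα hαβ
  have hroot : ∀ j, j ≤ k → ((u j : ℕ) : ℤ) ∣ (HP p D.g D.r c M).eval (X j) ∧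
        ¬ ((u j : ℕ) : ℤ) ∣ (derivative (HP p D.g D.r c M)).eval (X j) := by
    intro j hj
    obtain ⟨h1, h2⟩ := hL (u j) (Finset.mem_image.2 ⟨j, Finset.mem_range.2 (by omega), rfl⟩)
    exact hs (u j) j rfl c M h1 h2
  refine ⟨c, M, q₀, hc, hM, hcop, fun i j hij => (hdvd i j hij).trans hM₀M, hq₀, by omega, hq₀M,
    hq₀M2, by omega, hq₀o, hαc, hβc, ?_, ?_⟩
  · intro i
    obtain ⟨h3, h4, h5⟩ := hX2 i i rfl
    exact ⟨u i, X i, (hu i).2.1, (hroot i i.2.le).1, (hroot i i.2.le).2, h3, h4, h5⟩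
  · have h1 := (hu k).1
    exact ⟨u k, X k, (hu k).2.1, by omega, hX3 k le_rfl, (hroot k le_rfl).1, (hroot k le_rfl).2⟩

end Pool.Agent.J4H36.TP
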