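import Pool.Agent.J4H92.TP.Stm

/-!
# Selection of directions (piece RA of project TP of helper92)
-/

set_option autoImplicit false

namespace Pool.Agent.J4H36.TP

open Module Pool.Agent.H283R2.DR.TA Pool.Agent.J4H92.CP Pool.Agent.J4H92.TP

/-- a nonzero vector is not orthogonal to a generic vector -/
theorem good_dot (v : Fin 3 → ℝ) : Good (fun e : Fin 3 → ℝ => e ⬝ᵥ v ≠ 0) := by
  intro p0 p1 h0
  have h0 : p0 ⬝ᵥ v ≠ 0 := h0
  refine (Set.finite_singleton (-(p0 ⬝ᵥ v) / ((p1 - p0) ⬝ᵥ v))).subset ?_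
  intro s hs
  rw [Set.mem_ofPred_eq] at hs
  have hs : ¬ ((p0 + s • (p1 - p0)) ⬝ᵥ v ≠ 0) := hs
  rw [not_not, add_dotProduct, smul_dotProduct, smul_eq_mul] at hs
  have h1 : (p1 - p0) ⬝ᵥ v ≠ 0 := by
    intro h
    rw [h, mul_zero, add_zero] at hs
    exact h0 hs
  rw [Set.mem_singleton_iff, eq_div_iff h1]
  linarith

theorem ex_dot (v : Fin 3 → ℝ) (hv : v ≠ 0) : ∃ e : Fin 3 → ℝ, e ⬝ᵥ v ≠ 0 := by
  refine ⟨v, fun h => hv ?_⟩
  exact dotProduct_self_eq_zero.1 h

theorem mem_Vn {W : Type} {J : Set W} {m : W → Fin 3 → ℝ} : m ∈ Vn J ↔ ∀ x, x ∉ J → m x = 0 :=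
  Iff.rfl

/-- One direction after the other. -/
theorem sel {W : Type} [Fintype W] [DecidableEq W] (A : Finset W) :
    ∀ (Z : Submodule ℝ (W → Fin 3 → ℝ)),
    (∀ J : Set W, finrank ℝ (Z ⊓ Vn J : Submodule ℝ (W → Fin 3 → ℝ)) ≤ (J ∩ (A : Set W)).ncard) →
    ∃ e : W → Fin 3 → ℝ, ∀ z ∈ Z, (∀ j ∈ A, e j ⬝ᵥ z j = 0) → z = 0 := by
  classical
  induction A using Finset.induction_on with
  | empty =>
    intro Z h
    refine ⟨0, fun z hz _ => ?_⟩
    have h1 := h Set.univ
    rw [Finset.coe_empty, Set.inter_empty, Set.ncard_empty, Nat.le_zero] at h1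
    have h2 : z ∈ (Z ⊓ Vn Set.univ : Submodule ℝ (W → Fin 3 → ℝ)) :=
      ⟨hz, fun x hx => (hx (Set.mem_univ x)).elim⟩
    rw [Submodule.finrank_eq_zero.1 h1, Submodule.mem_bot] at h2
    exact h2
  | insert a A ha ih =>
    intro Z h
    -- witnesses
    have hw : ∀ J : Set W, ∃ v : Fin 3 → ℝ, v ≠ 0 ∧
        ((∃ z ∈ (Z ⊓ Vn J : Submodule ℝ (W → Fin 3 → ℝ)), z a ≠ 0) →
          ∃ z ∈ (Z ⊓ Vn J : Submodule ℝ (W → Fin 3 → ℝ)), z a = v) := by
      intro J
      by_cases hJ : ∃ z ∈ (Z ⊓ Vn J : Submodule ℝ (W → Fin 3 → ℝ)), z a ≠ 0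
      · obtain ⟨z, hz, hz0⟩ := hJ
        exact ⟨z a, hz0, fun _ => ⟨z, hz, rfl⟩⟩
      · refine ⟨1, one_ne_zero, fun h => (hJ h).elim⟩
    choose v hv0 hv using hw
    obtain ⟨ea, hea⟩ := good_family (E := Fin 3 → ℝ) (fun (J : Set W) e => e ⬝ᵥ v J ≠ 0)
      (fun J => good_dot (v J)) (fun J => ex_dot (v J) (hv0 J))
    let φ : (W → Fin 3 → ℝ) →ₗ[ℝ] ℝ :=
      { toFun := fun z => ea ⬝ᵥ z a
        map_add' := fun x y => by rw [Pi.add_apply, dotProduct_add]
        map_smul' := fun c x => by rw [Pi.smul_apply, dotProduct_smul, RingHom.id_apply] }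
    have hφ : ∀ z, φ z = ea ⬝ᵥ z a := fun z => rfl
    obtain ⟨e, he⟩ := ih (Z ⊓ LinearMap.ker φ) (by
      intro J
      by_cases haJ : a ∈ J
      · have hcard : (J ∩ ((insert a A : Finset W) : Set W)).ncard = (J ∩ (A : Set W)).ncard + 1 := by
          rw [Finset.coe_insert, Set.inter_insert_of_mem haJ]
          exact Set.ncard_insert_of_notMem (fun h => ha (Finset.mem_coe.1 h.2)) (Set.toFinite _)
        by_cases hex : ∃ z ∈ (Z ⊓ Vn J : Submodule ℝ (W → Fin 3 → ℝ)), z a ≠ 0
        · have hlt : ((Z ⊓ LinearMap.ker φ) ⊓ Vn J : Submodule ℝ (W → Fin 3 → ℝ)) <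
              (Z ⊓ Vn J : Submodule ℝ (W → Fin 3 → ℝ)) := by
            refine lt_of_le_of_ne (inf_le_inf_right _ inf_le_left) ?_
            intro heq
            obtain ⟨z, hz, hza⟩ := hv J hex
            rw [← heq] at hz
            have h3 : φ z = 0 := hz.1.2
            rw [hφ, hza] at h3
            exact hea J h3
          have h4 := Submodule.finrank_lt_finrank_of_lt hlt
          have h5 := h J
          rw [hcard] at h5
          omega
        · have hle : ((Z ⊓ LinearMap.ker φ) ⊓ Vn J : Submodule ℝ (W → Fin 3 → ℝ)) ≤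
              (Z ⊓ Vn (J \ {a}) : Submodule ℝ (W → Fin 3 → ℝ)) := by
            intro z hz
            refine ⟨hz.1.1, fun x hx => ?_⟩
            by_cases hxa : x = a
            · subst hxa
              by_contra hne
              exact hex ⟨z, ⟨hz.1.1, hz.2⟩, hne⟩
            · exact hz.2 x (fun hxJ => hx ⟨hxJ, hxa⟩)
          refine (Submodule.finrank_mono hle).trans ((h (J \ {a})).trans (le_of_eq ?_))
          congr 1
          ext x
          simp only [Set.mem_inter_iff, Set.mem_sdiff, Set.mem_singleton_iff, Finset.coe_insert,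
            Set.mem_insert_iff, Finset.mem_coe]
          constructor
          · rintro ⟨⟨h1, h2⟩, h3 | h3⟩
            · exact (h2 h3).elim
            · exact ⟨h1, h3⟩
          · rintro ⟨h1, h2⟩
            exact ⟨⟨h1, fun h => ha (h ▸ h2)⟩, Or.inr h2⟩
      · refine (Submodule.finrank_mono (inf_le_inf_right _ inf_le_left)).trans
          ((h J).trans (le_of_eq ?_))
        congr 1
        rw [Finset.coe_insert, Set.inter_insert_of_notMem haJ])
    refine ⟨Function.update e a ea, fun z hz hz0 => ?_⟩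
    refine he z ⟨hz, ?_⟩ (fun j hj => ?_)
    · have h1 := hz0 a (Finset.mem_insert_self a A)
      rw [Function.update_self] at h1
      show z ∈ LinearMap.ker φ
      rw [LinearMap.mem_ker, hφ]
      exact h1
    · have hja : j ≠ a := fun h => ha (h ▸ hj)
      have h1 := hz0 j (Finset.mem_insert_of_mem hj)
      rwa [Function.update_of_ne hja] at h1

/-- the system of the conditions at the vertices different from `i` -/
noncomputable def lm {W : Type} [DecidableEq W] (Z : Submodule ℝ (W → Fin 3 → ℝ)) (i : W) :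
    (W → Fin 3 → ℝ) →ₗ[ℝ] Z →ₗ[ℝ] (W → ℝ) :=
  LinearMap.mk₂ ℝ (fun e z j => if j = i then 0 else e j ⬝ᵥ (z : W → Fin 3 → ℝ) j)
    (by
      intro e e' z
      funext j
      by_cases h : j = i
      · simp [h]
      · simp [h, add_dotProduct])
    (by
      intro c e z
      funext j
      by_cases h : j = i
      · simp [h]
      · simp [h, smul_dotProduct])
    (by
      intro e z z'
      funext j
      by_cases h : j = i
      · simp [h]
      · simp [h, dotProduct_add])
    (by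
      intro c e z
      funext j
      by_cases h : j = i
      · simp [h]
      · simp [h, dotProduct_smul])

theorem lm_ker {W : Type} [Fintype W] [DecidableEq W] (Z : Submodule ℝ (W → Fin 3 → ℝ)) (i : W)
    (e : W → Fin 3 → ℝ) : finrank ℝ (LinearMap.ker (lm Z i e)) ≤ 0 ↔
      ∀ z ∈ Z, (∀ j, j ≠ i → e j ⬝ᵥ z j = 0) → z = 0 := by
  rw [Nat.le_zero, Submodule.finrank_eq_zero, LinearMap.ker_eq_bot']
  constructor
  · intro h z hz hz0
    have h1 := h ⟨z, hz⟩ (by
      funext j
      show (if j = i then 0 else e j ⬝ᵥ z j) = 0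
      by_cases hj : j = i
      · rw [if_pos hj]
      · rw [if_neg hj, hz0 j hj])
    exact congrArg Subtype.val h1
  · intro h z hz
    refine Subtype.ext (h z z.2 (fun j hj => ?_))
    have h1 : (if j = i then 0 else e j ⬝ᵥ (z : W → Fin 3 → ℝ) j) = 0 := congrFun hz j
    rwa [if_neg hj] at h1

theorem t_RA : S_RA := by
  classical
  intro W _ Z hZ
  refine good_family (E := W → Fin 3 → ℝ)
    (fun (i : W) e => ∀ z ∈ Z, (∀ j, j ≠ i → e j ⬝ᵥ z j = 0) → z = 0) ?_ ?_
  · intro i p0 p1 h0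
    refine (good_ker (lm Z i) 0 p0 p1 ((lm_ker Z i p0).2 h0)).subset ?_
    intro s hs
    rw [Set.mem_ofPred_eq] at hs ⊢
    exact fun h => hs ((lm_ker Z i _).1 h)
  · intro i
    obtain ⟨e, he⟩ := sel (Finset.univ.erase i) Z (by
      intro J
      rcases J.eq_empty_or_nonempty with rfl | hJ
      · have h1 : (Z ⊓ Vn (∅ : Set W) : Submodule ℝ (W → Fin 3 → ℝ)) = ⊥ := by
          rw [eq_bot_iff]
          intro z hz
          rw [Submodule.mem_bot]
          funext x
          exact hz.2 x (Set.notMem_empty x)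
        rw [h1, finrank_bot]
        exact Nat.zero_le _
      · have h1 := hZ J hJ
        have h2 : J \ {i} ⊆ J ∩ ((Finset.univ.erase i : Finset W) : Set W) := by
          intro x hx
          exact ⟨hx.1, by simpa using hx.2⟩
        have h3 := Set.ncard_le_ncard h2 (Set.toFinite _)
        have h4 := Set.pred_ncard_le_ncard_sdiff_singleton J i
        omega)
    exact ⟨e, fun z hz h => he z hz (fun j hj => h j (Finset.ne_of_mem_erase hj))⟩

end Pool.Agent.J4H36.TP
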